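import Mathlib

set_option autoImplicit false

open Set Topology

namespace Pool.Agent.Results.MP_6a4cde_an.SparseSupports

universe u

section defs

variable (G : Type u) [Group G] {X : Type u} [TopologicalSpace X] [MulAction G X]

/-- `J` is an independence set for the tuple `U` of subsets of `X`: for every nonempty finite
`I ⊆ J` and every `σ`, the intersection over `g ∈ I` of `g⁻¹ • U (σ g)` is nonempty. -/
def IsIndep {n : ℕ} (U : Fin n → Set X) (J : Set G) : Prop :=
  ∀ I : Finset G, I.Nonempty → (I : Set G) ⊆ J → ∀ σ : G → Fin n,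
    (⋂ g ∈ I, (fun x : X => g⁻¹ • x) '' (U (σ g))).Nonempty

/-- IT-tuples: every product neighbourhood has an infinite independence set. -/
def IsIT {n : ℕ} (x : Fin n → X) : Prop :=
  ∀ U : Fin n → Set X, (∀ i, U i ∈ 𝓝 (x i)) → ∃ J : Set G, J.Infinite ∧ IsIndep G U J

variable (X)

/-- `n`-tameness: there is no IT-tuple of length `n` with pairwise distinct entries. -/
def NTame (n : ℕ) : Prop :=
  ∀ x : Fin n → X, IsIT G x → ¬ Function.Injective x

end defs

section sparse

variable {G : Type u} [Group G]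

/-- A sequence in a group none of whose terms is a product `s a * (s b)⁻¹ * s c` of earlier
terms. -/
def Sparse (s : ℕ → G) : Prop :=
  ∀ n a b c : ℕ, a < n → b < n → c < n → s n ≠ s a * (s b)⁻¹ * s c

lemma exists_sparse [Infinite G] : ∃ s : ℕ → G, Sparse s := by
  classical
  have step : ∀ l : List G, ∃ x : G, ∀ a ∈ l, ∀ b ∈ l, ∀ c ∈ l, x ≠ a * b⁻¹ * c := by
    intro l
    let T : Finset G := (l.toFinset ×ˢ l.toFinset ×ˢ l.toFinset).image
      (fun p => p.1 * p.2.1⁻¹ * p.2.2)
    obtain ⟨x, hx⟩ := Infinite.exists_notMem_finset T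
    refine ⟨x, fun a ha b hb c hc h => hx ?_⟩
    rw [Finset.mem_image]
    exact ⟨(a, b, c), by simp [ha, hb, hc], h.symm⟩
  choose f hf using step
  let L : ℕ → List G := fun n => Nat.rec [] (fun _ l => f l :: l) n
  have hL : ∀ n, L (n + 1) = f (L n) :: L n := fun n => rfl
  have hmem : ∀ n a, a < n → f (L a) ∈ L n := by
    intro n
    induction n with
    | zero => intro a ha; omega
    | succ n ih =>
      intro a ha
      rw [hL]
      rcases Nat.lt_succ_iff_lt_or_eq.mp ha with h | h
      · exact List.mem_cons_of_mem _ (ih a h)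
      · subst h
        exact List.mem_cons_self
  refine ⟨fun n => f (L n), fun n a b c ha hb hc => ?_⟩
  exact hf (L n) _ (hmem n a ha) _ (hmem n b hb) _ (hmem n c hc)

variable {s : ℕ → G} (hs : Sparse s)

include hs

lemma sparse_inj : Function.Injective s := by
  intro i j h
  by_contra hne
  rcases lt_or_gt_of_ne hne with hlt | hlt
  · exact hs j i i i hlt hlt hlt (by simp [h])
  · exact hs i j j j hlt hlt hlt (by simp [h])

/-- Left multiplication by `k ≠ 1` maps at most two terms of the sequence to terms of the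
sequence. -/
lemma left_two {k : G} (hk : k ≠ 1) :
    ∃ i₁ i₂ : ℕ, ∀ i j : ℕ, s j = k * s i → i = i₁ ∨ i = i₂ := by
  classical
  by_cases hex : ∃ i j, s j = k * s i
  · obtain ⟨i₀, j₀, h₀⟩ := hex
    have hne : ∀ i j, s j = k * s i → i ≠ j := by
      rintro i j h rfl
      apply hk
      have : (1 : G) * s i = k * s i := by rw [one_mul]; exact h
      exact (mul_right_cancel this).symm
    have hquot : ∀ i j i' j', s j = k * s i → s j' = k * s i' →
        s j = s j' * (s i')⁻¹ * s i ∧ s i = s i' * (s j')⁻¹ * s j := by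
      intro i j i' j' h h'
      rw [h, h']
      constructor <;> group
    have hmax : ∀ i j i' j', s j = k * s i → s j' = k * s i' → max i' j' < max i j → False := by
      intro i j i' j' h h' hlt
      obtain ⟨h1, h2⟩ := hquot i j i' j' h h'
      have := hne i j h
      rcases lt_or_gt_of_ne this with hij | hij
      · exact hs j j' i' i (by omega) (by omega) (by omega) h1
      · exact hs i i' j' j (by omega) (by omega) (by omega) h2
    have hall : ∀ i j, s j = k * s i → max i j = max i₀ j₀ := by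
      intro i j h
      rcases lt_trichotomy (max i j) (max i₀ j₀) with h1 | h1 | h1
      · exact (hmax i₀ j₀ i j h₀ h h1).elim
      · exact h1
      · exact (hmax i j i₀ j₀ h h₀ h1).elim
    set n := max i₀ j₀ with hn
    by_cases hex2 : ∃ i, s n = k * s i
    · obtain ⟨i₂, hi₂⟩ := hex2
      refine ⟨n, i₂, fun i j h => ?_⟩
      have h1 := hall i j h
      rcases le_total i j with hij | hij
      · right
        have : j = n := by omega
        subst this
        apply sparse_inj hs
        have h3 : k * s i = k * s i₂ := by rw [← h, ← hi₂]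
        exact mul_left_cancel h3
      · left; omega
    · refine ⟨n, n, fun i j h => ?_⟩
      have h1 := hall i j h
      rcases le_total i j with hij | hij
      · exfalso
        apply hex2
        have : j = n := by omega
        subst this
        exact ⟨i, h⟩
      · left; omega
  · exact ⟨0, 0, fun i j h => (hex ⟨i, j, h⟩).elim⟩

/-- Right multiplication by `d ≠ 1` maps at most two terms of the sequence to terms of the
sequence. -/
lemma right_two {d : G} (hd : d ≠ 1) :
    ∃ i₁ i₂ : ℕ, ∀ i j : ℕ, s j = s i * d → i = i₁ ∨ i = i₂ := by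
  -- pass to the opposite group
  have hs' : Sparse (G := Gᵐᵒᵖ) (fun n => MulOpposite.op (s n)) := by
    intro n a b c ha hb hc h
    apply hs n c b a hc hb ha
    have := congrArg MulOpposite.unop h
    simpa [mul_assoc] using this
  have hd' : MulOpposite.op d ≠ 1 := by
    intro h
    apply hd
    exact MulOpposite.op_injective (by rw [h, MulOpposite.op_one])
  obtain ⟨i₁, i₂, h⟩ := left_two hs' hd'
  refine ⟨i₁, i₂, fun i j hij => h i j ?_⟩
  show MulOpposite.op (s j) = MulOpposite.op d * MulOpposite.op (s i)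
  rw [← MulOpposite.op_mul, hij]

lemma card_le_two_of_pair {a b k : G} (hab : a ≠ b) (I : Finset G)
    (h : ∀ g ∈ I, (∃ n, g⁻¹ * a = k * s n) ∧ (∃ m, g⁻¹ * b = k * s m)) : I.card ≤ 2 := by
  classical
  have hd : a⁻¹ * b ≠ 1 := by
    intro h1
    exact hab (inv_mul_eq_one.mp h1)
  obtain ⟨i₁, i₂, h12⟩ := right_two hs hd
  have hsub : I ⊆ {a * (k * s i₁)⁻¹, a * (k * s i₂)⁻¹} := by
    intro g hg
    obtain ⟨⟨n, hn⟩, m, hm⟩ := h g hg
    have h1 : s m = s n * (a⁻¹ * b) := by
      have e1 : s n = k⁻¹ * (g⁻¹ * a) := by rw [hn]; group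
      have e2 : s m = k⁻¹ * (g⁻¹ * b) := by rw [hm]; group
      rw [e1, e2]; group
    have hg' : g = a * (k * s n)⁻¹ := by rw [← hn]; group
    rw [Finset.mem_insert, Finset.mem_singleton]
    rcases h12 n m h1 with rfl | rfl
    · exact Or.inl hg'
    · exact Or.inr hg'
  exact (Finset.card_le_card hsub).trans Finset.card_le_two

lemma card_le_two_of_translates {a k k' : G} (hk : k ≠ k') (I : Finset G)
    (h : ∀ g ∈ I, (∃ n, g⁻¹ * a = k * s n) ∧ (∃ m, g⁻¹ * a = k' * s m)) : I.card ≤ 2 := by
  classical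
  have hd : k'⁻¹ * k ≠ 1 := by
    intro h1
    exact hk (inv_mul_eq_one.mp h1).symm
  obtain ⟨i₁, i₂, h12⟩ := left_two hs hd
  have hsub : I ⊆ {a * (k * s i₁)⁻¹, a * (k * s i₂)⁻¹} := by
    intro g hg
    obtain ⟨⟨n, hn⟩, m, hm⟩ := h g hg
    have h1 : s m = (k'⁻¹ * k) * s n := by
      rw [mul_assoc, ← hn, hm]; group
    have hg' : g = a * (k * s n)⁻¹ := by rw [← hn]; group
    rw [Finset.mem_insert, Finset.mem_singleton]
    rcases h12 n m h1 with rfl | rfl
    · exact Or.inl hg'
    · exact Or.inr hg'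
  exact (Finset.card_le_card hsub).trans Finset.card_le_two

end sparse

section system

variable {G : Type u} [Group G]

/-- The configurations supported in one left translate `g * range s`. -/
def Sys (s : ℕ → G) (k : ℕ) : Set (G → Fin (k + 1)) :=
  {x | ∃ g : G, ∀ h : G, x h ≠ 0 → ∃ n, h = g * s n}

lemma isClosed_sys {s : ℕ → G} (hs : Sparse s) (k : ℕ) : IsClosed (Sys s k) := by
  classical
  rw [← closure_subset_iff_isClosed]
  intro x hx
  by_cases hsub : ∃ a b, a ≠ b ∧ x a ≠ 0 ∧ x b ≠ 0
  · obtain ⟨a, b, hab, ha, hb⟩ := hsub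
    have hd : a⁻¹ * b ≠ 1 := fun h1 => hab (inv_mul_eq_one.mp h1)
    obtain ⟨i₁, i₂, h12⟩ := right_two hs hd
    let Y : G → Set (G → Fin (k + 1)) := fun g => {y | ∀ h : G, y h ≠ 0 → ∃ n, h = g * s n}
    have hY : ∀ g, IsClosed (Y g) := by
      intro g
      have : Y g = ⋂ h : {h : G // ¬ ∃ n, h = g * s n}, {y | y h = 0} := by
        ext y
        simp only [mem_iInter, Subtype.forall, Y, Set.mem_ofPred_eq]
        constructor
        · intro hy h hh
          by_contra hne
          exact hh (hy h hne)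
        · intro hy h hne
          by_contra hh
          exact hne (hy h hh)
      rw [this]
      exact isClosed_iInter fun h => isClosed_eq (continuous_apply _) continuous_const
    let O : Set (G → Fin (k + 1)) := {y | y a ≠ 0 ∧ y b ≠ 0}
    have hO : IsOpen O := by
      have ca : Continuous (fun y : G → Fin (k + 1) => y a) := continuous_apply a
      have cb : Continuous (fun y : G → Fin (k + 1) => y b) := continuous_apply b
      have h1 : IsOpen {y : G → Fin (k + 1) | y a ≠ 0} :=
        ca.isOpen_preimage {0}ᶜ (isOpen_discrete _)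
      have h2 : IsOpen {y : G → Fin (k + 1) | y b ≠ 0} :=
        cb.isOpen_preimage {0}ᶜ (isOpen_discrete _)
      exact h1.inter h2
    have hsubY : O ∩ Sys s k ⊆ Y (a * (s i₁)⁻¹) ∪ Y (a * (s i₂)⁻¹) := by
      rintro y ⟨⟨hya, hyb⟩, g, hg⟩
      obtain ⟨n, hn⟩ := hg a hya
      obtain ⟨m, hm⟩ := hg b hyb
      have h1 : s m = s n * (a⁻¹ * b) := by
        rw [hm, hn]; group
      have hg' : g = a * (s n)⁻¹ := by rw [hn]; group
      rcases h12 n m h1 with rfl | rfl
      · left; rw [← hg']; exact hg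
      · right; rw [← hg']; exact hg
    have hx2 : x ∈ closure (O ∩ Sys s k) := hO.inter_closure ⟨⟨ha, hb⟩, hx⟩
    have hx3 : x ∈ Y (a * (s i₁)⁻¹) ∪ Y (a * (s i₂)⁻¹) :=
      closure_minimal hsubY ((hY _).union (hY _)) hx2
    rcases hx3 with h | h
    · exact ⟨_, h⟩
    · exact ⟨_, h⟩
  · push Not at hsub
    by_cases hne : ∃ a, x a ≠ 0
    · obtain ⟨a, ha⟩ := hne
      refine ⟨a * (s 0)⁻¹, fun h hh => ⟨0, ?_⟩⟩
      have : h = a := by
        by_contra hne
        exact hh (hsub a h (fun e => hne e.symm) ha)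
      rw [this]; group
    · push Not at hne
      exact ⟨1, fun h hh => (hh (hne h)).elim⟩

/-- The shift action of `G` on the configurations. -/
instance sysAction (s : ℕ → G) (k : ℕ) : MulAction G (Sys s k) where
  smul g x := ⟨fun h => x.1 (g⁻¹ * h), by
    obtain ⟨g', hg'⟩ := x.2
    refine ⟨g * g', fun h hh => ?_⟩
    obtain ⟨n, hn⟩ := hg' _ hh
    refine ⟨n, ?_⟩
    rw [mul_assoc, ← hn]; group⟩
  one_smul x := by
    apply Subtype.ext
    funext h
    show x.1 (1⁻¹ * h) = x.1 h
    simp
  mul_smul g g' x := by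
    apply Subtype.ext
    funext h
    show x.1 ((g * g')⁻¹ * h) = x.1 (g'⁻¹ * (g⁻¹ * h))
    rw [mul_inv_rev, mul_assoc]

lemma smul_apply (s : ℕ → G) (k : ℕ) (g : G) (x : Sys s k) (h : G) :
    (g • x).1 h = x.1 (g⁻¹ * h) := rfl

instance sysCont (s : ℕ → G) (k : ℕ) : ContinuousConstSMul G (Sys s k) where
  continuous_const_smul g := by
    refine Continuous.subtype_mk ?_ _
    exact continuous_pi fun h => (continuous_apply (g⁻¹ * h)).comp continuous_subtype_val

/-- Neighbourhoods in the system contain cylinders. -/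
lemma exists_cylinder (s : ℕ → G) (k : ℕ) (x : Sys s k) {U : Set (Sys s k)} (hU : U ∈ 𝓝 x) :
    ∃ F : Finset G, ∀ y : Sys s k, (∀ h ∈ F, y.1 h = x.1 h) → y ∈ U := by
  classical
  rw [nhds_subtype, Filter.mem_comap] at hU
  obtain ⟨V, hV, hVU⟩ := hU
  rw [nhds_pi, Filter.mem_pi] at hV
  obtain ⟨F, hF, t, ht, htV⟩ := hV
  refine ⟨hF.toFinset, fun y hy => hVU (htV ?_)⟩
  intro h hh
  have := hy h (by simpa using hh)
  rw [this]
  exact mem_of_mem_nhds (ht h)

lemma cylinder_mem_nhds (s : ℕ → G) (k : ℕ) (x : Sys s k) (F : Finset G) :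
    {y : Sys s k | ∀ h ∈ F, y.1 h = x.1 h} ∈ 𝓝 x := by
  have hopen : IsOpen {y : Sys s k | ∀ h ∈ F, y.1 h = x.1 h} := by
    have : {y : Sys s k | ∀ h ∈ F, y.1 h = x.1 h} = ⋂ h ∈ F, {y | y.1 h = x.1 h} := by
      ext y; simp
    rw [this]
    refine isOpen_biInter_finset fun h _ => ?_
    have ch : Continuous (fun y : Sys s k => y.1 h) :=
      (continuous_apply h).comp continuous_subtype_val
    exact ch.isOpen_preimage {x.1 h} (isOpen_discrete _)
  exact hopen.mem_nhds (fun h _ => rfl)

/-- The configuration with value `i` at `1` and `0` elsewhere. -/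
noncomputable def delta (s : ℕ → G) (k : ℕ) (i : Fin (k + 1)) : Sys s k := by
  classical
  exact ⟨fun h => if h = 1 then i else 0, (s 0)⁻¹, fun h hh => ⟨0, by
    by_cases h1 : h = 1
    · rw [h1]; group
    · simp [h1] at hh⟩⟩

lemma delta_one (s : ℕ → G) (k : ℕ) (i : Fin (k + 1)) : (delta s k i).1 1 = i := by
  simp [delta]

lemma delta_ne (s : ℕ → G) (k : ℕ) (i : Fin (k + 1)) {h : G} (hh : h ≠ 1) :
    (delta s k i).1 h = 0 := by
  simp [delta, hh]

lemma delta_injective (s : ℕ → G) (k : ℕ) : Function.Injective (delta s k) := by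
  intro i j h
  rw [← delta_one s k i, ← delta_one s k j, h]

lemma delta_isIT {s : ℕ → G} (hs : Sparse s) (k : ℕ) : IsIT G (delta s k) := by
  classical
  intro U hU
  choose F hF using fun i => exists_cylinder s k (delta s k i) (hU i)
  let FF : Finset G := Finset.univ.biUnion F
  let N : Set ℕ := {n | ∀ h ∈ FF, h ≠ 1 → ¬ ∃ j, s j = s n * h}
  have hN : Nᶜ.Finite := by
    have hsub : Nᶜ ⊆ ⋃ h ∈ {h | h ∈ FF ∧ h ≠ 1}, {n | ∃ j, s j = s n * h} := by
      intro n hn
      simp only [N, mem_compl_iff, Set.mem_ofPred_eq, not_forall, not_not] at hn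
      obtain ⟨h, hh, h1, hj⟩ := hn
      simp only [mem_iUnion, Set.mem_ofPred_eq]
      exact ⟨h, ⟨hh, h1⟩, hj⟩
    refine Set.Finite.subset ?_ hsub
    refine Set.Finite.biUnion ?_ ?_
    · exact FF.finite_toSet.subset fun h hh => hh.1
    · rintro h ⟨_, h1⟩
      obtain ⟨i₁, i₂, h12⟩ := right_two hs h1
      refine Set.Finite.subset (Set.toFinite {i₁, i₂}) ?_
      rintro n ⟨j, hj⟩
      exact h12 n j hj
  have hNinf : N.Infinite := by
    have := hN.infinite_compl
    rwa [compl_compl] at this
  refine ⟨(fun n => (s n)⁻¹) '' N, ?_, ?_⟩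
  · refine hNinf.image ?_
    intro a _ b _ h
    exact sparse_inj hs (inv_injective h)
  · intro I _ hIJ σ
    let y : G → Fin (k + 1) := fun h => if h⁻¹ ∈ I then σ h⁻¹ else 0
    have hy0 : ∀ h, y h ≠ 0 → ∃ n, h = s n := by
      intro h hh
      by_cases hI : h⁻¹ ∈ I
      · obtain ⟨n, _, hn⟩ := hIJ hI
        exact ⟨n, (inv_injective hn).symm⟩
      · simp [y, hI] at hh
    let Y : Sys s k := ⟨y, 1, fun h hh => by
      obtain ⟨n, hn⟩ := hy0 h hh
      exact ⟨n, by rw [one_mul]; exact hn⟩⟩
    refine ⟨Y, ?_⟩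
    simp only [mem_iInter]
    intro g hg
    refine ⟨g • Y, ?_, by simp⟩
    apply hF (σ g)
    intro h hh
    have hhFF : h ∈ FF := Finset.mem_biUnion.mpr ⟨σ g, Finset.mem_univ _, hh⟩
    rw [smul_apply]
    obtain ⟨n, hn, hgn⟩ := hIJ hg
    by_cases h1 : h = 1
    · subst h1
      rw [delta_one]
      show y (g⁻¹ * 1) = σ g
      simp [y, hg]
    · rw [delta_ne s k _ h1]
      by_contra hne
      obtain ⟨m, hm⟩ := hy0 _ hne
      apply hn h hhFF h1
      refine ⟨m, ?_⟩
      rw [← hm, ← hgn, inv_inv]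

lemma nTame_succ {s : ℕ → G} (hs : Sparse s) (k : ℕ) : NTame G (Sys s k) (k + 2) := by
  classical
  intro x hIT hinj
  -- a finite set separating the entries
  have hsep : ∀ i j : Fin (k + 2), ∃ h : G, i ≠ j → (x i).1 h ≠ (x j).1 h := by
    intro i j
    by_cases hij : i = j
    · exact ⟨1, fun h => (h hij).elim⟩
    · have h1 : (x i).1 ≠ (x j).1 := fun h => hij (hinj (Subtype.ext h))
      obtain ⟨h, hh⟩ := Function.ne_iff.mp h1
      exact ⟨h, fun _ => hh⟩
  choose hh hsep using hsep
  let F : Finset G := Finset.univ.image (fun p : Fin (k + 2) × Fin (k + 2) => hh p.1 p.2)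
  have hF : ∀ i j, hh i j ∈ F := fun i j => Finset.mem_image.mpr ⟨(i, j), Finset.mem_univ _, rfl⟩
  obtain ⟨J, hJ, hind⟩ := hIT (fun i => {y : Sys s k | ∀ h ∈ F, y.1 h = (x i).1 h})
    (fun i => cylinder_mem_nhds s k (x i) F)
  -- configurations realising a given `σ`
  have hreal : ∀ I : Finset G, I.Nonempty → (I : Set G) ⊆ J → ∀ σ : G → Fin (k + 2),
      ∃ c : G, ∀ g ∈ I, ∀ h ∈ F, (x (σ g)).1 h ≠ 0 → ∃ n, g⁻¹ * h = c * s n := by
    intro I hI hIJ σ
    obtain ⟨y, hy⟩ := hind I hI hIJ σ
    simp only [mem_iInter] at hy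
    obtain ⟨c, hc⟩ := y.2
    refine ⟨c, fun g hg h hhF hne => ?_⟩
    obtain ⟨z, hz, hzy⟩ := hy g hg
    have hz' : z = g • y := by
      simp only at hzy
      rw [← hzy]; simp
    have h1 : y.1 (g⁻¹ * h) = (x (σ g)).1 h := by
      rw [← hz h hhF, hz', smul_apply]
    apply hc
    rw [h1]; exact hne
  -- a subset of `J` with four elements
  obtain ⟨I, hIJ, hIcard⟩ := hJ.exists_subset_card_eq 4
  have hInon : I.Nonempty := Finset.card_pos.mp (by omega)
  -- at most one nonzero entry in each pattern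
  have claim1 : ∀ i, ∀ a ∈ F, ∀ b ∈ F, (x i).1 a ≠ 0 → (x i).1 b ≠ 0 → a = b := by
    intro i a ha b hb hxa hxb
    by_contra hab
    obtain ⟨c, hc⟩ := hreal I hInon hIJ (fun _ => i)
    have := card_le_two_of_pair hs hab (k := c) I
      (fun g hg => ⟨hc g hg a ha hxa, hc g hg b hb hxb⟩)
    omega
  have claim2 : ∀ i j, i ≠ j → ∀ a ∈ F, ∀ b ∈ F, (x i).1 a ≠ 0 → (x j).1 b ≠ 0 → a = b := by
    intro i j hij a ha b hb hxa hxb
    by_contra hab
    obtain ⟨c, hc⟩ := hreal I hInon hIJ (fun _ => i)
    have hboth : ∀ g₀ ∈ I, (∃ n, g₀⁻¹ * a = c * s n) ∧ (∃ m, g₀⁻¹ * b = c * s m) := by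
      intro g₀ hg₀
      refine ⟨hc g₀ hg₀ a ha hxa, ?_⟩
      obtain ⟨c', hc'⟩ := hreal I hInon hIJ (fun g => if g = g₀ then j else i)
      have hcc : c = c' := by
        by_contra hne
        have h2 := card_le_two_of_translates hs (a := a) hne (I.erase g₀) (fun g hg => by
          have hgI := Finset.mem_of_mem_erase hg
          have hgne := Finset.ne_of_mem_erase hg
          refine ⟨hc g hgI a ha hxa, ?_⟩
          apply hc' g hgI a ha
          simp only [hgne, if_false]
          exact hxa)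
        rw [Finset.card_erase_of_mem hg₀, hIcard] at h2
        omega
      rw [hcc]
      apply hc' g₀ hg₀ b hb
      simp only [if_true]
      exact hxb
    have := card_le_two_of_pair hs hab (k := c) I hboth
    omega
  -- all nonzero entries are in one place
  by_cases hall : ∃ i, ∃ a ∈ F, (x i).1 a ≠ 0
  · obtain ⟨i₀, a, ha, hxa⟩ := hall
    have hpos : ∀ i, ∀ h ∈ F, h ≠ a → (x i).1 h = 0 := by
      intro i h hhF hha
      by_contra hne
      by_cases hi : i = i₀
      · subst hi
        exact hha (claim1 i h hhF a ha hne hxa)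
      · exact hha (claim2 i i₀ hi h hhF a ha hne hxa)
    have hinj2 : Function.Injective (fun i : Fin (k + 2) => (x i).1 a) := by
      intro i j hij
      by_contra hne
      apply hsep i j hne
      by_cases h1 : hh i j = a
      · rw [h1]; exact hij
      · rw [hpos i _ (hF i j) h1, hpos j _ (hF i j) h1]
    have := Fintype.card_le_of_injective _ hinj2
    simp at this
  · push Not at hall
    have h01 : (0 : Fin (k + 2)) ≠ 1 := by
      intro h
      simpa using congrArg Fin.val h
    apply hsep 0 1 h01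
    rw [hall 0 _ (hF 0 1), hall 1 _ (hF 0 1)]

end system

/-- **On every countable infinite group, `(m+1)`-tameness does not force `m`-tameness.**
For every countable infinite group `G` and every `m ≥ 2` there is a continuous action of `G` on a
nonempty compact metrizable space which is `(m+1)`-tame but not `m`-tame.  For `m = 2`: a
`3`-tame system that is not tame. -/
theorem result (G : Type u) [Group G] [Countable G] [Infinite G] (m : ℕ) (hm : 2 ≤ m) :
    ∃ (X : Type u) (_ : TopologicalSpace X) (_ : MulAction G X),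
      CompactSpace X ∧ TopologicalSpace.MetrizableSpace X ∧ Nonempty X ∧
      ContinuousConstSMul G X ∧ NTame G X (m + 1) ∧ ¬ NTame G X m := by
  obtain ⟨k, rfl⟩ : ∃ k, m = k + 1 := ⟨m - 1, by omega⟩
  obtain ⟨s, hs⟩ := exists_sparse (G := G)
  refine ⟨Sys s k, inferInstance, inferInstance, ?_, ?_, ⟨delta s k 0⟩, inferInstance,
    nTame_succ hs k, ?_⟩
  · exact isCompact_iff_compactSpace.mp (isClosed_sys hs k).isCompact
  · exact TopologicalSpace.metrizableSpace_of_t3_secondCountable _
  · intro h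
    exact h (delta s k) (delta_isIT hs k) (delta_injective s k)

end Pool.Agent.Results.MP_6a4cde_an.SparseSupports
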